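import Pool.Agent.CVG.FinB

/-!
# Semisimple quantum cohomology of Fano manifolds converges
-/

open Pool.Agent.Helper18.Dub Pool.Agent.Helper7.DubStokes

namespace Pool.Agent.Results.MP_78bf89_ag.Convergence

/-- Let `X` be a Fano manifold whose big quantum cohomology is semisimple at the generic point of
`Spec ℂ[[t]]`. Then its genus-zero potential converges: the correlators satisfy
`|⟨φ_{i_1}, …, φ_{i_n}⟩| ≤ C A^n n!`, and on some polydisc `|t_i| < r` all third derivatives of the
potential converge absolutely. The points of this polydisc at which multiplication by the Euler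
field has pairwise distinct eigenvalues (canonical coordinates) form a dense open subset. -/
theorem result {ι : Type} [Fintype ι] [DecidableEq ι] (X : FanoGW ι)
    (h : X.IsGenericallySemisimple) :
    (∃ C A : ℝ, ∀ s : Multiset ι, 3 ≤ Multiset.card s →
      ‖X.corr s‖ ≤ C * A ^ Multiset.card s * ((Multiset.card s).factorial : ℝ)) ∧
    ∃ r : ℝ, 0 < r ∧
      (∀ t : ι → ℂ, (∀ i, ‖t i‖ < r) → ConvergesAt X t) ∧
      IsOpen {t : ι → ℂ | (∀ i, ‖t i‖ < r) ∧ (eulerMat X t).charpoly.Separable} ∧
      ∀ t : ι → ℂ, (∀ i, ‖t i‖ < r) →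
        t ∈ closure {t : ι → ℂ | (∀ i, ‖t i‖ < r) ∧ (eulerMat X t).charpoly.Separable} :=
  ⟨Pool.Agent.CVG.corr_bound X h, Pool.Agent.CVG.exists_domain X h⟩

end Pool.Agent.Results.MP_78bf89_ag.Convergence
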