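import Pool.Agent.INS.Sharp

/-!
# Every algorithm for large stable sets in sparse random graphs is unstable

`MP_f583e4_lc`, Q1.  `M = M_k(n)`.  Replacing an edge: one edge is deleted and another one is
inserted.  For every `ε > 0` there is `c > 0` such that for all large `k` and all `n ≥ n₀(k)` the
following holds for EVERY map `F` (computable or not, with a random seed) from graphs to sets of
vertices; `p` is the probability that `F` finds a stable set with at least `n/k` vertices in the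
random graph with `M` edges.

(A) Start with the random graph and replace `m` random edges, one after the other, `1 ≤ m ≤ M`.  The
probability that `F` finds a stable set of size `n/k` before and after these replacements and that
these two sets differ in at most `c n/k` vertices is at most `exp (- c m/k²)`.

(B) If `m` is even, then with probability at least `p² - exp (- c m/k²)` the outputs before and after
the `m` replacements are stable sets of size `n/k` which differ in more than `c n/k` vertices.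

(C) The average sensitivity is linear: the mean number of vertices which enter or leave the output
when one random edge is replaced is at least `(c n/(k m)) (p² - exp (- c m/k²))` for all even
`m ≤ M`. If `p ≥ 1 - c/k²`, then this number is larger than `c n/k` with probability at least `c/k²`.

(D) If the values of the pairs in `P r v G` always certify whether the vertex `v` belongs to the
output on the input `G` (seed `r`), then for all even `m ≤ M` the average over `r` and `G` of
`∑ v, (#edges in P r v G / M + #non-edges in P r v G / (C(n,2) - M))` is at least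
`(c n/(k m)) (p² - exp (- c m/k²))`.

(E) The order `n/k³` of the average sensitivity given by (C) cannot be improved: there is a map which
finds a stable set with at least `n/k` vertices whenever there is one and which has average
sensitivity at most `n/(c k³)`.
-/

namespace Pool.Agent.Results.MP_f583e4_lc.Instability

/-- the number of edges `M_k(n) = ⌊(1/2 + ε) k (ln k) n⌋` -/
noncomputable def Mk (ε : ℝ) (k n : ℕ) : ℕ := ⌊(1 / 2 + ε) * k * Real.log k * n⌋₊

/-- the graphs on `Fin n` with `M` edges -/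
def Graphs (n M : ℕ) : Set (SimpleGraph (Fin n)) := {G | G.edgeSet.ncard = M}

/-- on the input `G` the map `F` finds a stable set with at least `n / k` vertices -/
def Finds {n : ℕ} (F : SimpleGraph (Fin n) → Finset (Fin n)) (k : ℕ) (G : SimpleGraph (Fin n)) :
    Prop :=
  (∀ u ∈ F G, ∀ v ∈ F G, ¬ G.Adj u v) ∧ (n : ℝ) / k ≤ (F G).card

/-- the sequences `g 0, ..., g m` of graphs with `M` edges, each obtained from the preceding one by
the deletion of one edge and the insertion of another one -/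
def Walks (n M m : ℕ) : Set (Fin (m + 1) → SimpleGraph (Fin n)) :=
  {g | (∀ i, (g i).edgeSet.ncard = M) ∧
    ∀ i : Fin m, ((g i.castSucc).edgeSet \ (g i.succ).edgeSet).ncard = 1}

/-- the number of the vertices in exactly one of the sets `A`, `B` -/
def dist {n : ℕ} (A B : Finset (Fin n)) : ℕ := (A \ B).card + (B \ A).card

/-- the probability that the map `F` with the random seed `r ∈ Ω` finds a stable set with at least
`n / k` vertices in the random graph with `M` edges -/
noncomputable def succ {n : ℕ} {Ω : Type} [Fintype Ω] (F : Ω → SimpleGraph (Fin n) → Finset (Fin n))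
    (k M : ℕ) : ℝ :=
  {p : Ω × SimpleGraph (Fin n) | p.2 ∈ Graphs n M ∧ Finds (F p.1) k p.2}.ncard /
    (Fintype.card Ω * (Graphs n M).ncard)

/-- cost of the sets of pairs `P v` in the graph `G` with `M` edges: sum over the vertices `v` of the
fraction of the edges and the fraction of the non-edges in `P v` -/
noncomputable def cost {n : ℕ} (M : ℕ) (P : Fin n → Set (Sym2 (Fin n))) (G : SimpleGraph (Fin n)) :
    ℝ :=
  ∑ v : Fin n, (((P v ∩ G.edgeSet).ncard : ℝ) / M +
    ((P v \ G.edgeSet).ncard : ℝ) / ((n.choose 2 : ℝ) - M))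

section aux

variable {Ω X : Type} [Fintype Ω] [Finite X]

private theorem ncard_pairs (S : Ω → Set X) :
    {p : Ω × X | p.2 ∈ S p.1}.ncard = ∑ r, (S r).ncard := by
  classical
  have := Fintype.ofFinite X
  have h1 : ∀ r, (S r).ncard = (Finset.univ.filter (fun x => x ∈ S r)).card := by
    intro r
    rw [← Set.ncard_coe_finset]
    congr 1
    ext x
    simp
  simp_rw [h1]
  rw [← Finset.card_sigma, ← Set.ncard_coe_finset]
  refine Set.ncard_congr (fun p _ => ⟨p.1, p.2⟩) ?_ ?_ ?_
  · intro p hp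
    simpa using hp
  · rintro ⟨a, b⟩ ⟨a', b'⟩ _ _ h
    simp only [Sigma.mk.injEq, heq_eq_eq] at h
    simp [h.1, h.2]
  · rintro ⟨a, b⟩ h
    exact ⟨(a, b), by simpa using h, rfl⟩

/-- at least half of the seeds are good -/
private theorem half_seeds {a b c : ℝ} (hc : 0 < c) (s : Ω → ℝ) (hs : ∀ r, s r ≤ b) (hb : 0 ≤ b)
    (ht : (1 - c / 2) * ((Fintype.card Ω : ℝ) * b) ≤ ∑ r, s r) (f : Ω → ℝ) (hf : ∀ r, 0 ≤ f r)
    (ha : 0 ≤ a) (hgood : ∀ r, (1 - c) * b ≤ s r → a ≤ f r) :
    a / 2 * Fintype.card Ω ≤ ∑ r, f r := by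
  classical
  rcases hb.eq_or_lt with hb0 | hb0
  · have h1 : ∀ r, a ≤ f r := by
      intro r
      have h2 := Finset.sum_nonneg (s := Finset.univ) (f := fun r => b - s r)
        (fun r _ => sub_nonneg.mpr (hs r))
      have h3 : ∑ r, (b - s r) ≤ 0 := by
        rw [Finset.sum_sub_distrib]
        simp only [Finset.sum_const, Finset.card_univ, nsmul_eq_mul, ← hb0, mul_zero] at ht ⊢
        linarith
      have h4 : b - s r = 0 := by
        have h5 := (Finset.sum_eq_zero_iff_of_nonneg (fun r _ => sub_nonneg.mpr (hs r))).mp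
          (le_antisymm h3 h2)
        exact h5 r (Finset.mem_univ r)
      apply hgood
      rw [← hb0] at h4 ⊢
      linarith
    calc a / 2 * Fintype.card Ω ≤ a * Fintype.card Ω := by
          apply mul_le_mul_of_nonneg_right _ (Nat.cast_nonneg _)
          linarith
      _ = ∑ _r : Ω, a := by simp [mul_comm]
      _ ≤ ∑ r, f r := Finset.sum_le_sum fun r _ => h1 r
  · set A := Finset.univ.filter (fun r => (1 - c) * b ≤ s r) with hA
    have h1 : ∑ r, s r ≤ (A.card : ℝ) * b + (((Fintype.card Ω : ℝ)) - A.card) * ((1 - c) * b) := by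
      have e1 : ∑ r, s r = ∑ r ∈ A, s r + ∑ r ∈ Finset.univ.filter (fun r => ¬ (1 - c) * b ≤ s r),
          s r := by
        rw [hA, Finset.sum_filter_add_sum_filter_not]
      have e2 : ((Finset.univ.filter (fun r => ¬ (1 - c) * b ≤ s r)).card : ℝ) =
          (Fintype.card Ω : ℝ) - A.card := by
        have := Finset.card_filter_add_card_filter_not (s := (Finset.univ : Finset Ω))
          (p := fun r => (1 - c) * b ≤ s r)
        rw [Finset.card_univ] at this
        rw [← this]
        push_cast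
        rw [← hA]
        ring
      rw [e1, ← e2]
      apply add_le_add
      · calc ∑ r ∈ A, s r ≤ ∑ _r ∈ A, b := Finset.sum_le_sum fun r _ => hs r
          _ = A.card * b := by simp
      · calc ∑ r ∈ Finset.univ.filter (fun r => ¬ (1 - c) * b ≤ s r), s r
            ≤ ∑ _r ∈ Finset.univ.filter (fun r => ¬ (1 - c) * b ≤ s r), (1 - c) * b :=
              Finset.sum_le_sum fun r hr => (not_le.mp (Finset.mem_filter.mp hr).2).le
          _ = _ := by simp
    have h2 : (Fintype.card Ω : ℝ) ≤ 2 * A.card := by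
      have h3 : (c * b) * ((Fintype.card Ω : ℝ) - 2 * A.card) ≤ 0 := by nlinarith
      have h4 : 0 < c * b := mul_pos hc hb0
      by_contra h5
      push Not at h5
      have h6 := mul_pos h4 (sub_pos.mpr h5)
      linarith
    calc a / 2 * Fintype.card Ω ≤ a / 2 * (2 * A.card) := by
          apply mul_le_mul_of_nonneg_left h2; linarith
      _ = ∑ _r ∈ A, a := by simp; ring
      _ ≤ ∑ r ∈ A, f r := Finset.sum_le_sum fun r hr => hgood r (Finset.mem_filter.mp hr).2
      _ ≤ ∑ r, f r := Finset.sum_le_univ_sum_of_nonneg hf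

private theorem mean_sq (s : Ω → ℝ) :
    Fintype.card Ω * ((∑ r, s r) / Fintype.card Ω) ^ 2 ≤ ∑ r, s r ^ 2 := by
  rcases Nat.eq_zero_or_pos (Fintype.card Ω) with h | h
  · rw [h]
    simp only [Nat.cast_zero, zero_mul]
    exact Finset.sum_nonneg fun r _ => sq_nonneg _
  · have h1 : (0 : ℝ) < Fintype.card Ω := by exact_mod_cast h
    have h2 := sq_sum_le_card_mul_sum_sq (s := (Finset.univ : Finset Ω)) (f := s)
    rw [Finset.card_univ] at h2
    rw [div_pow, ← mul_div_assoc, div_le_iff₀ (by positivity)]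
    nlinarith

end aux

open Classical in
/-- **Every algorithm for large stable sets is unstable.** -/
theorem result (ε : ℝ) (hε : 0 < ε) :
    ∃ c : ℝ, 0 < c ∧ ∃ k₀ : ℕ, ∀ k : ℕ, k₀ ≤ k → ∃ n₀ : ℕ, ∀ n : ℕ, n₀ ≤ n →
      -- `Ω` = finite set of seeds, `F r G` = output for the seed `r` and the input `G`
      (∀ (Ω : Type) (_ : Fintype Ω) (F : Ω → SimpleGraph (Fin n) → Finset (Fin n)),
        -- (A)
        (∀ m : ℕ, 1 ≤ m → m ≤ Mk ε k n →
          ({p : Ω × (Fin (m + 1) → SimpleGraph (Fin n)) | p.2 ∈ Walks n (Mk ε k n) m ∧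
            Finds (F p.1) k (p.2 0) ∧ Finds (F p.1) k (p.2 (Fin.last m)) ∧
            (dist (F p.1 (p.2 0)) (F p.1 (p.2 (Fin.last m))) : ℝ) ≤ c * (n / k)}.ncard : ℝ) ≤
          Real.exp (-(c * m / k ^ 2)) * (Fintype.card Ω * (Walks n (Mk ε k n) m).ncard)) ∧
        -- (B)
        (∀ m : ℕ, Even m → 1 ≤ m → m ≤ Mk ε k n →
          (succ F k (Mk ε k n) ^ 2 - Real.exp (-(c * m / k ^ 2))) *
            (Fintype.card Ω * (Walks n (Mk ε k n) m).ncard) ≤
          ({p : Ω × (Fin (m + 1) → SimpleGraph (Fin n)) | p.2 ∈ Walks n (Mk ε k n) m ∧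
            Finds (F p.1) k (p.2 0) ∧ Finds (F p.1) k (p.2 (Fin.last m)) ∧
            c * (n / k) < (dist (F p.1 (p.2 0)) (F p.1 (p.2 (Fin.last m))) : ℝ)}.ncard : ℝ)) ∧
        -- (C)
        (∀ m : ℕ, Even m → 1 ≤ m → m ≤ Mk ε k n →
          c * (n / k) / m * (succ F k (Mk ε k n) ^ 2 - Real.exp (-(c * m / k ^ 2))) *
            (Fintype.card Ω * (Walks n (Mk ε k n) 1).ncard) ≤
          ∑ r : Ω, ∑ g : Fin 2 → SimpleGraph (Fin n) with g ∈ Walks n (Mk ε k n) 1,
            (dist (F r (g 0)) (F r (g 1)) : ℝ)) ∧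
        (1 - c / k ^ 2 ≤ succ F k (Mk ε k n) →
          c / k ^ 2 * (Fintype.card Ω * (Walks n (Mk ε k n) 1).ncard) ≤
          ({p : Ω × (Fin 2 → SimpleGraph (Fin n)) | p.2 ∈ Walks n (Mk ε k n) 1 ∧
            c * (n / k) < dist (F p.1 (p.2 0)) (F p.1 (p.2 1))}.ncard : ℝ)) ∧
        -- (D)
        ∀ P : Ω → Fin n → SimpleGraph (Fin n) → Set (Sym2 (Fin n)),
          (∀ r v, ∀ G ∈ Graphs n (Mk ε k n), ∀ G' ∈ Graphs n (Mk ε k n),
            (∀ e ∈ P r v G, e ∈ G.edgeSet ↔ e ∈ G'.edgeSet) → (v ∈ F r G ↔ v ∈ F r G')) →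
          ∀ m : ℕ, Even m → 1 ≤ m → m ≤ Mk ε k n →
            c * (n / k) / m * (succ F k (Mk ε k n) ^ 2 - Real.exp (-(c * m / k ^ 2))) *
              (Fintype.card Ω * (Graphs n (Mk ε k n)).ncard) ≤
            ∑ r : Ω, ∑ G : SimpleGraph (Fin n) with G ∈ Graphs n (Mk ε k n),
              cost (Mk ε k n) (fun v => P r v G) G) ∧
      -- (E)
      ∃ F : SimpleGraph (Fin n) → Finset (Fin n),
        (∀ G : SimpleGraph (Fin n), (∃ S : Finset (Fin n), (∀ u ∈ S, ∀ v ∈ S, ¬ G.Adj u v) ∧
          (n : ℝ) / k ≤ S.card) → Finds F k G) ∧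
        ∑ g : Fin 2 → SimpleGraph (Fin n) with g ∈ Walks n (Mk ε k n) 1,
          (dist (F (g 0)) (F (g 1)) : ℝ) ≤
        n / (c * k ^ 3) * (Walks n (Mk ε k n) 1).ncard := by
  have hcc : 0 < INS.cc ε := by
    obtain ⟨h1, _, h3, _⟩ := INS.be_pos hε
    have h4 : (0 : ℝ) < INS.KK ε := by exact_mod_cast h3
    unfold INS.cc
    apply lt_min h1
    positivity
  set c0 : ℝ := INS.cc ε / 6 with hc0
  have hc0p : 0 < c0 := by positivity
  obtain ⟨k1, h1⟩ := INS.graph_gap hε
  obtain ⟨k2, h2⟩ := INS.jump hε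
  obtain ⟨k3, h3⟩ := INS.cert_far hε
  obtain ⟨k5, h5⟩ := INS.far hε
  obtain ⟨k6, h6⟩ := INS.avg_far hε
  refine ⟨c0 / 2, by positivity, max (max k1 k2) (max (max k3 k5) (max k6 3)), fun k hk => ?_⟩
  have hk1 : k1 ≤ k := by omega
  have hk2 : k2 ≤ k := by omega
  have hk3 : k3 ≤ k := by omega
  have hk5 : k5 ≤ k := by omega
  have hk6 : k6 ≤ k := by omega
  have hk4 : 3 ≤ k := by omega
  have hkp : (0 : ℝ) < k := by
    have : 0 < k := by omega
    exact_mod_cast this
  obtain ⟨n4, g4⟩ := INS.numA hε hk4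
  obtain ⟨n1, g1⟩ := h1 k hk1
  obtain ⟨n2, g2⟩ := h2 k hk2
  obtain ⟨n3, g3⟩ := h3 k hk3
  obtain ⟨n5, g5⟩ := h5 k hk5
  obtain ⟨n6, g6⟩ := h6 k hk6
  obtain ⟨n7, g7⟩ := INS.sharp hε hk4
  refine ⟨max (max n1 n4) (max (max n2 n5) (max n3 (max n6 n7))), fun n hn =>
    ⟨fun Ω _ F => ?_, ?_⟩⟩
  swap
  · obtain ⟨F, e1, e2⟩ := g7 n (by omega)
    refine ⟨F, e1, e2.trans ?_⟩
    have e3 : c0 / 2 ≤ 1 / 24 := by
      have e4 : INS.cc ε ≤ INS.be ε := min_le_left _ _
      have e5 := (INS.be_pos hε).2.1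
      rw [hc0]
      linarith
    refine mul_le_mul_of_nonneg_right ?_ (Nat.cast_nonneg _)
    have e6 : 24 * ((n : ℝ) / (k : ℝ) ^ 3) = n / (1 / 24 * (k : ℝ) ^ 3) := by
      field_simp
    rw [e6]
    apply div_le_div_of_nonneg_left (Nat.cast_nonneg _) (by positivity)
    exact mul_le_mul_of_nonneg_right e3 (by positivity)
  have hn1 : n1 ≤ n := by omega
  have hn4 : n4 ≤ n := by omega
  have hn2 : n2 ≤ n := by omega
  have hn3 : n3 ≤ n := by omega
  have hn5 : n5 ≤ n := by omega
  have hn6 : n6 ≤ n := by omega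
  have hMN : (0 : ℝ) ≤ (n.choose 2 : ℝ) - Mk ε k n := by
    have h5 := (g4 n hn4).MN
    rw [INS.NN_eq] at h5
    have h6 : Mk ε k n ≤ n.choose 2 := by
      have h7 : Mk ε k n = INS.Mk ε k n := rfl
      omega
    have h8 : (Mk ε k n : ℝ) ≤ (n.choose 2 : ℝ) := by exact_mod_cast h6
    linarith
  have hx : (0 : ℝ) ≤ (n : ℝ) / k := by positivity
  -- monotonicity in the constant
  have hmono : ∀ m : ℕ, Real.exp (-(INS.cc ε * m / k ^ 2)) ≤ Real.exp (-(c0 / 2 * m / k ^ 2)) := by
    intro m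
    apply Real.exp_le_exp.mpr
    apply neg_le_neg
    apply div_le_div_of_nonneg_right _ (by positivity)
    apply mul_le_mul_of_nonneg_right _ (Nat.cast_nonneg _)
    rw [hc0]
    linarith
  -- the success probabilities of the seeds
  set S : Ω → ℝ := fun r => (({G : SimpleGraph (Fin n) |
      G ∈ Graphs n (Mk ε k n) ∧ Finds (F r) k G}).ncard : ℝ) with hS
  set g : ℝ := ((Graphs n (Mk ε k n)).ncard : ℝ) with hg
  have hg0 : 0 ≤ g := Nat.cast_nonneg _
  have hSsum : (({p : Ω × SimpleGraph (Fin n) | p.2 ∈ Graphs n (Mk ε k n) ∧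
      Finds (F p.1) k p.2}).ncard : ℝ) = ∑ r, S r := by
    have e1 := ncard_pairs (Ω := Ω) (fun r => {G : SimpleGraph (Fin n) |
      G ∈ Graphs n (Mk ε k n) ∧ Finds (F r) k G})
    simp only [Set.mem_ofPred_eq] at e1
    rw [e1, hS]
    push_cast
    rfl
  have hsucc : succ F k (Mk ε k n) = (∑ r, S r / g) / Fintype.card Ω := by
    unfold succ
    rw [hSsum, ← Finset.sum_div, div_div, mul_comm g]
  have hsq : Fintype.card Ω * succ F k (Mk ε k n) ^ 2 ≤ ∑ r, (S r / g) ^ 2 := by
    rw [hsucc]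
    exact mean_sq fun r => S r / g
  have hcard : ∀ r : Ω, S r ≤ g := by
    intro r
    refine Nat.cast_le.mpr (Set.ncard_le_ncard (fun g hg => ?_) (Set.toFinite _))
    exact hg.1
  -- summation over the seeds
  have hsum : ∀ (m : ℕ) (A B : ℝ) (f : Ω → ℝ), 0 ≤ A → 0 ≤ B →
      (∀ r, A * ((S r / g) ^ 2 - Real.exp (-(c0 / 2 * m / k ^ 2))) * B ≤ f r) →
      A * (succ F k (Mk ε k n) ^ 2 - Real.exp (-(c0 / 2 * m / k ^ 2))) *
        (Fintype.card Ω * B) ≤ ∑ r, f r := by
    intro m A B f hA hB hf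
    have h10 : 0 ≤ A * B := by positivity
    calc _ = A * B * (Fintype.card Ω * succ F k (Mk ε k n) ^ 2 -
          Fintype.card Ω * Real.exp (-(c0 / 2 * m / k ^ 2))) := by ring
      _ ≤ A * B *
          (∑ r, (S r / g) ^ 2 - Fintype.card Ω * Real.exp (-(c0 / 2 * m / k ^ 2))) :=
          mul_le_mul_of_nonneg_left (by linarith) h10
      _ = ∑ r : Ω, A * ((S r / g) ^ 2 - Real.exp (-(c0 / 2 * m / k ^ 2))) * B := by
          rw [← Finset.sum_mul, ← Finset.mul_sum, Finset.sum_sub_distrib, Finset.sum_const,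
            Finset.card_univ, nsmul_eq_mul]
          ring
      _ ≤ _ := Finset.sum_le_sum fun r _ => hf r
  -- comparison of the constants
  have hcomp : ∀ (r : Ω) (m : ℕ) (B U : ℝ), 1 ≤ m → 0 ≤ B → 0 ≤ U →
      INS.cc ε * ((n : ℝ) / k) / m *
        (((({G : SimpleGraph (Fin n) | G.edgeSet.ncard = INS.Mk ε k n ∧
            INS.Finds (F r) k G}).ncard : ℝ) /
            (({G : SimpleGraph (Fin n) | G.edgeSet.ncard = INS.Mk ε k n}).ncard : ℝ)) ^ 2 -
          Real.exp (-(INS.cc ε * m / k ^ 2))) * B ≤ U →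
      c0 / 2 * (n / k) / m * ((S r / g) ^ 2 - Real.exp (-(c0 / 2 * m / k ^ 2))) * B ≤ U := by
    intro r m B U hm hB hU hle
    have hmp : (0 : ℝ) < m := by exact_mod_cast hm
    have e3 : (S r / g) ^ 2 =
        ((({G : SimpleGraph (Fin n) | G.edgeSet.ncard = INS.Mk ε k n ∧
          INS.Finds (F r) k G}).ncard : ℝ) /
          (({G : SimpleGraph (Fin n) | G.edgeSet.ncard = INS.Mk ε k n}).ncard : ℝ)) ^ 2 := rfl
    rw [← e3] at hle
    rcases le_or_gt ((S r / g) ^ 2 - Real.exp (-(c0 / 2 * m / k ^ 2))) 0 with h6 | h6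
    · refine le_trans ?_ hU
      have h7 : 0 ≤ c0 / 2 * (n / k) / m * B := by positivity
      nlinarith
    · refine le_trans ?_ hle
      have h8 := hmono m
      have h9 : c0 / 2 * ((n : ℝ) / k) / m ≤ INS.cc ε * ((n : ℝ) / k) / m := by
        apply div_le_div_of_nonneg_right _ hmp.le
        apply mul_le_mul_of_nonneg_right _ hx
        rw [hc0]
        linarith
      refine mul_le_mul_of_nonneg_right (mul_le_mul h9 (by linarith) h6.le (by positivity)) hB
  refine ⟨fun m hm hmM => ?_, fun m hme hm hmM => ?_, fun m hme hm hmM => ?_, fun hs => ?_,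
    fun P hP m hme hm hmM => ?_⟩
  · -- (A)
    have e1 := ncard_pairs (Ω := Ω) (fun r => {g : Fin (m + 1) → SimpleGraph (Fin n) |
      g ∈ Walks n (Mk ε k n) m ∧
            Finds (F r) k (g 0) ∧ Finds (F r) k (g (Fin.last m)) ∧
            (dist (F r (g 0)) (F r (g (Fin.last m))) : ℝ) ≤ c0 / 2 * (n / k)})
    simp only [Set.mem_ofPred_eq] at e1
    rw [e1]
    push_cast
    have e2 : ∀ r : Ω, (({g : Fin (m + 1) → SimpleGraph (Fin n) |
      g ∈ Walks n (Mk ε k n) m ∧
            Finds (F r) k (g 0) ∧ Finds (F r) k (g (Fin.last m)) ∧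
            (dist (F r (g 0)) (F r (g (Fin.last m))) : ℝ) ≤ c0 / 2 * (n / k)}).ncard : ℝ) ≤
        Real.exp (-(c0 / 2 * m / k ^ 2)) * (Walks n (Mk ε k n) m).ncard := by
      intro r
      refine le_trans ?_ ((g1 n hn1 (F r) m hm hmM).trans ?_)
      · refine Nat.cast_le.mpr (Set.ncard_le_ncard (fun g hg => ?_) (Set.toFinite _))
        exact ⟨hg.1, hg.2.1, hg.2.2.1,
          le_trans hg.2.2.2 (mul_le_mul_of_nonneg_right (by rw [hc0]; linarith) hx)⟩
      · exact mul_le_mul_of_nonneg_right (hmono m) (Nat.cast_nonneg _)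
    calc _ ≤ ∑ _r : Ω, Real.exp (-(c0 / 2 * m / k ^ 2)) * (Walks n (Mk ε k n) m).ncard :=
          Finset.sum_le_sum fun r _ => e2 r
      _ = _ := by
          rw [Finset.sum_const, Finset.card_univ, nsmul_eq_mul]
          ring
  · -- (B)
    have e1 := ncard_pairs (Ω := Ω) (fun r => {g : Fin (m + 1) → SimpleGraph (Fin n) |
      g ∈ Walks n (Mk ε k n) m ∧
            Finds (F r) k (g 0) ∧ Finds (F r) k (g (Fin.last m)) ∧
            c0 / 2 * (n / k) < (dist (F r (g 0)) (F r (g (Fin.last m))) : ℝ)})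
    simp only [Set.mem_ofPred_eq] at e1
    rw [e1]
    push_cast
    set W : ℝ := ((Walks n (Mk ε k n) m).ncard : ℝ) with hW
    have hW0 : 0 ≤ W := Nat.cast_nonneg _
    have e2 : ∀ r : Ω, ((S r / g) ^ 2 - Real.exp (-(c0 / 2 * m / k ^ 2))) * W ≤
        (({g : Fin (m + 1) → SimpleGraph (Fin n) |
      g ∈ Walks n (Mk ε k n) m ∧
            Finds (F r) k (g 0) ∧ Finds (F r) k (g (Fin.last m)) ∧
            c0 / 2 * (n / k) < (dist (F r (g 0)) (F r (g (Fin.last m))) : ℝ)}).ncard : ℝ) := by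
      intro r
      refine le_trans ?_ ((g5 n hn5 (F r) m hme hm hmM).trans ?_)
      · refine mul_le_mul_of_nonneg_right ?_ hW0
        have := hmono m
        have e3 : (S r / g) ^ 2 =
          ((({G : SimpleGraph (Fin n) | G.edgeSet.ncard = INS.Mk ε k n ∧
            INS.Finds (F r) k G}).ncard : ℝ) /
            (({G : SimpleGraph (Fin n) | G.edgeSet.ncard = INS.Mk ε k n}).ncard : ℝ)) ^ 2 := rfl
        rw [← e3]
        linarith
      · refine Nat.cast_le.mpr (Set.ncard_le_ncard (fun g hg => ?_) (Set.toFinite _))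
        exact ⟨hg.1, hg.2.1, hg.2.2.1,
          lt_of_le_of_lt (mul_le_mul_of_nonneg_right (by rw [hc0]; linarith) hx) hg.2.2.2⟩
    calc _ = (Fintype.card Ω * succ F k (Mk ε k n) ^ 2 -
          Fintype.card Ω * Real.exp (-(c0 / 2 * m / k ^ 2))) * W := by ring
      _ ≤ (∑ r, (S r / g) ^ 2 - Fintype.card Ω * Real.exp (-(c0 / 2 * m / k ^ 2))) * W :=
          mul_le_mul_of_nonneg_right (by linarith) hW0
      _ = ∑ r : Ω, ((S r / g) ^ 2 - Real.exp (-(c0 / 2 * m / k ^ 2))) * W := by
          rw [← Finset.sum_mul, Finset.sum_sub_distrib, Finset.sum_const, Finset.card_univ,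
            nsmul_eq_mul]
      _ ≤ _ := Finset.sum_le_sum fun r _ => e2 r
  · -- (C), average sensitivity
    set W : ℝ := ((Walks n (Mk ε k n) 1).ncard : ℝ) with hW
    have hW0 : 0 ≤ W := Nat.cast_nonneg _
    refine hsum m _ W _ (by positivity) hW0 fun r => ?_
    refine hcomp r m W _ hm hW0 (Finset.sum_nonneg fun g _ => Nat.cast_nonneg _) ?_
    have e7 := g6 n hn6 (F r) m hme hm hmM
    rw [INS.steps_sum] at e7
    exact e7
  · -- (C)
    have hs' : (1 - (c0 / k ^ 2) / 2) * (Fintype.card Ω * g) ≤ ∑ r : Ω, S r := by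
      have e3 : (c0 / k ^ 2) / 2 = c0 / 2 / (k : ℝ) ^ 2 := by ring
      rw [e3]
      have hp : (0 : ℝ) ≤ Fintype.card Ω * g := by positivity
      rcases hp.eq_or_lt with h0 | h0
      · rw [← h0, mul_zero]
        exact Finset.sum_nonneg fun r _ => Nat.cast_nonneg _
      · have e4 : succ F k (Mk ε k n) = (∑ r, S r) / (Fintype.card Ω * g) := by
          unfold succ
          rw [hSsum]
        rw [e4] at hs
        exact (le_div_iff₀ h0).mp hs
    have hck : 0 < c0 / (k : ℝ) ^ 2 := by positivity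
    have e4 := ncard_pairs (Ω := Ω) (fun r => {g : Fin 2 → SimpleGraph (Fin n) |
      g ∈ Walks n (Mk ε k n) 1 ∧ c0 / 2 * (n / k) < dist (F r (g 0)) (F r (g 1))})
    simp only [Set.mem_ofPred_eq] at e4
    rw [e4]
    push_cast
    have e5 := half_seeds (a := c0 / k ^ 2 * ((Walks n (Mk ε k n) 1).ncard : ℝ)) hck
      S hcard (Nat.cast_nonneg _) hs'
      (fun r : Ω => (({g : Fin 2 → SimpleGraph (Fin n) |
        g ∈ Walks n (Mk ε k n) 1 ∧ c0 / 2 * (n / k) < dist (F r (g 0)) (F r (g 1))}).ncard : ℝ))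
      (fun r => Nat.cast_nonneg _) (by positivity) (fun r hr => ?_)
    · refine le_trans (le_of_eq ?_) e5
      ring
    · refine (g2 n hn2 (F r) hr).trans ?_
      refine Nat.cast_le.mpr (Set.ncard_le_ncard (fun g hg => ?_) (Set.toFinite _))
      exact ⟨hg.1, lt_of_le_of_lt (mul_le_mul_of_nonneg_right (by linarith) hx) hg.2⟩
  · -- (D)
    have hcost : ∀ (r : Ω) (G : SimpleGraph (Fin n)), 0 ≤ cost (Mk ε k n) (fun v => P r v G) G := by
      intro r G
      refine Finset.sum_nonneg fun v _ => ?_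
      exact add_nonneg (by positivity) (div_nonneg (Nat.cast_nonneg _) hMN)
    refine hsum m _ g _ (by positivity) hg0 fun r => ?_
    refine hcomp r m g _ hm hg0 (Finset.sum_nonneg fun G _ => hcost r G) ?_
    have e7 := g3 n hn3 (F r) (P r) (fun v G G' hG hG' => hP r v G hG G' hG') m hme hm hmM
    have e8 : INS.Cost (INS.Mk ε k n) (P r) =
        ∑ G : SimpleGraph (Fin n) with G ∈ Graphs n (Mk ε k n),
          cost (Mk ε k n) (fun v => P r v G) G := by
      unfold INS.Cost
      have e9 : (Finset.univ.filter fun G : SimpleGraph (Fin n) => G ∈ Graphs n (Mk ε k n)) =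
          Finset.univ.filter fun G : SimpleGraph (Fin n) => G.edgeSet.ncard = INS.Mk ε k n := by
        ext G
        simp [Graphs, Mk, INS.Mk]
      rw [e9]
      rfl
    rw [e8] at e7
    refine le_trans (le_of_eq ?_) e7
    rw [mul_assoc]
    rfl

end Pool.Agent.Results.MP_f583e4_lc.Instability
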